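import Mathlib
import Pool.Agent.K3h1.RdvCount

set_option autoImplicit false

/-!
# Symmetric rendezvous on the hypercube in `(2 + o(1)) 2^d` steps (MP_02b4f7_co)

For every `α > 2` there are symmetric strategies on the hypercubes `Q_d` for which the probability
that the players have not met at time `α 2^d` tends to `0`.  This is the negated form of Q1 (for
every `2 < α < 4`).

The strategy.  Let `r = 2 ^ q` and `m = 2 ^ (r - 1)`.  The vertices are divided into `m` portions of
nearly the same size, which are (nearly) unions of weight levels.  The time is divided into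
`2 ^ r = 2 m` blocks numbered by the `0-1` sequences of length `r`.  Each player chooses a random type
`i < r`.  In the blocks whose digit `i` is `1` a player of type `i` stays at home, in the other blocks
he visits the portion `p` for which the number of the block is `blk r i p`.  For `i ≠ j` and any `p` the
digit `j` of `blk r i p` and the digit `i` of `blk r j p` are different, so that one of the players is at
home while the other one visits portion `p`.  If `π` is the automorphism, then the home of one player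
is at `π 0` and that of the other one at `π⁻¹ 0` in the copies of the other player; these have the
same weight, and hence usually lie in the same portion `p`.
-/

namespace Pool.Agent.Results.MP_02b4f7_co.FasterThanFour

open Pool.Agent.K3h1.Rdv Filter Topology
open scoped ENNReal

/-- The probability of `τ > T` for the strategy `D` on the graph `G`: the players take independent
schedules `x`, `y` with the distribution `D` and an independent uniformly distributed automorphism
`π` of `G`, and do not meet at the times `t + 1 ≤ T`.  (`x t` is the position at time `t + 1`.) -/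
noncomputable def failProb {V : Type} (G : SimpleGraph V) (D : PMF (ℕ → V)) (T : ℝ) : ℝ≥0∞ :=
  ∑' x, ∑' y, D x * D y *
    ((Nat.card {π : G ≃g G // ∀ t : ℕ, (t : ℝ) + 1 ≤ T → x t ≠ π (y t)} : ℝ≥0∞) /
      (Nat.card (G ≃g G) : ℝ≥0∞))

theorem tsum_map {α β : Type} (p : PMF α) (g : α → β) (F : β → ℝ≥0∞) :
    ∑' b, (p.map g) b * F b = ∑' a, p a * F (g a) := by
  classical
  have h1 : ∀ b, (p.map g) b * F b = ∑' a, (if b = g a then p a * F b else 0) := by
    intro b
    rw [PMF.map_apply, ← ENNReal.tsum_mul_right]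
    refine tsum_congr (fun a => ?_)
    by_cases h : b = g a <;> simp [h]
  simp_rw [h1]
  rw [ENNReal.tsum_comm]
  refine tsum_congr (fun a => ?_)
  rw [tsum_eq_single (g a)]
  · simp
  · intro b hb
    simp [hb]

theorem core (q s d : ℕ) (hs : s ≤ d) (T : ℝ)
    (hT : (2 : ℝ) ^ (2 ^ q) * (2 ^ (d - s) + (2 ^ d / ((2 ^ (2 ^ q - 1) : ℕ) : ℝ) +
      del (d - s) * 2 ^ d) + d + 1) ≤ T) :
    ∃ D : PMF (ℕ → (Fin d → Bool)), (∀ x ∈ D.support, IsSchedule (cube (Fin d)) x) ∧
      failProb (cube (Fin d)) D T ≤ (((2 ^ q : ℕ) : ℝ≥0∞))⁻¹ +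
        ENNReal.ofReal (((2 ^ (2 ^ q - 1) : ℕ) : ℝ) * s * del d) := by
  classical
  set m : ℕ := 2 ^ (2 ^ q - 1) with hm
  have hmpos : 0 < m := by positivity
  obtain ⟨S, -, hS⟩ := Finset.exists_subset_card_eq (s := (Finset.univ : Finset (Fin d))) (n := s)
    (by simpa using hs)
  have hSc : Sᶜ.card = d - s := by rw [Finset.card_compl, hS, Fintype.card_fin]
  have hScc : Sᶜᶜ.card = s := by rw [compl_compl, hS]
  set M : ℕ := ⌊(2 : ℝ) ^ d / (m : ℝ) + del (d - s) * 2 ^ d⌋₊ with hM
  set ℓ : ℕ := 2 ^ (d - s) + M + d + 1 with hℓ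
  have hbd : 0 ≤ (2 : ℝ) ^ d / (m : ℝ) + del (d - s) * 2 ^ d := by
    have := del_nonneg (d - s)
    positivity
  obtain ⟨x, hx1, hx2⟩ := exists_design (cube (Fin d)) zero ℓ (Nat.succ_pos _) q
    (fun p => {a | cls Sᶜ m a = p}) (by
      intro p hp
      refine tour_closed S _ ?_ zero ℓ ?_
      · intro a b hab ha
        have e : wt Sᶜ a = wt Sᶜ b := by
          unfold wt
          congr 1
          apply Finset.filter_congr
          intro i hi
          rw [hab i (by simpa using hi)]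
        have ha' : cls Sᶜ m a = p := ha
        change cls Sᶜ m b = p
        rw [← ha', cls, cls, e]
      · have h1 : Nat.card {a : Fin d → Bool // cls Sᶜ m a = p} ≤ M := by
          rw [hM, Nat.le_floor_iff hbd]
          have := card_cls_le Sᶜ hmpos p
          rw [hSc, Fintype.card_fin] at this
          exact this
        have h2 : Nat.card ({a : Fin d → Bool | cls Sᶜ m a = p} : Set _) =
          Nat.card {a : Fin d → Bool // cls Sᶜ m a = p} := rfl
        rw [h2, hSc, Fintype.card_fin]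
        omega)
  have hℓT : ∀ t : ℕ, t < 2 ^ (2 ^ q) * ℓ → (t : ℝ) + 1 ≤ T := by
    intro t ht
    have h1 : ((t + 1 : ℕ) : ℝ) ≤ ((2 ^ (2 ^ q) * ℓ : ℕ) : ℝ) := by exact_mod_cast ht
    push_cast at h1
    have h2 : (ℓ : ℝ) ≤ 2 ^ (d - s) + (2 ^ d / (m : ℝ) + del (d - s) * 2 ^ d) + d + 1 := by
      rw [hℓ]
      push_cast
      have := Nat.floor_le hbd
      rw [← hM] at this
      linarith
    refine h1.trans (le_trans ?_ hT)
    exact mul_le_mul_of_nonneg_left h2 (by positivity)
  -- the distribution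
  let D : PMF (ℕ → (Fin d → Bool)) :=
    (PMF.uniformOfFintype (Fin (2 ^ q))).map (fun i : Fin (2 ^ q) => x (i : ℕ))
  refine ⟨D, ?_, ?_⟩
  · intro y hy
    rw [PMF.mem_support_map_iff] at hy
    obtain ⟨i, -, rfl⟩ := hy
    exact hx1 _
  -- the conditional probabilities
  set c : (ℕ → (Fin d → Bool)) → (ℕ → (Fin d → Bool)) → ℝ≥0∞ := fun y z =>
    ((Nat.card {π : cube (Fin d) ≃g cube (Fin d) // ∀ t : ℕ, (t : ℝ) + 1 ≤ T → y t ≠ π (z t)} :
      ℝ≥0∞) / (Nat.card (cube (Fin d) ≃g cube (Fin d)) : ℝ≥0∞)) with hc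
  have haut : Nat.card (cube (Fin d) ≃g cube (Fin d)) ≠ 0 := by
    rw [Nat.card_ne_zero]
    exact ⟨⟨RelIso.refl _⟩, inferInstance⟩
  have hc1 : ∀ y z, c y z ≤ 1 := by
    intro y z
    rw [hc]
    simp only
    apply ENNReal.div_le_of_le_mul
    rw [one_mul]
    have := Nat.card_le_card_of_injective (Subtype.val :
      {π : cube (Fin d) ≃g cube (Fin d) // ∀ t : ℕ, (t : ℝ) + 1 ≤ T → y t ≠ π (z t)} → _)
      Subtype.val_injective
    exact_mod_cast this
  set β : ℝ≥0∞ := ENNReal.ofReal ((m : ℝ) * s * del d) with hβ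
  have hc2 : ∀ i < 2 ^ q, ∀ j < 2 ^ q, i ≠ j → c (x i) (x j) ≤ β := by
    intro i hi j hj hij
    rw [hc]
    simp only
    set B : Set (Fin d → Bool) := {a | bad Sᶜ m (wt Finset.univ a)} with hB
    have h1 : Nat.card {π : cube (Fin d) ≃g cube (Fin d) //
        ∀ t : ℕ, (t : ℝ) + 1 ≤ T → x i t ≠ π (x j t)} ≤
        Nat.card {π : cube (Fin d) ≃g cube (Fin d) // π zero ∈ B} := by
      let f : {π : cube (Fin d) ≃g cube (Fin d) //
          ∀ t : ℕ, (t : ℝ) + 1 ≤ T → x i t ≠ π (x j t)} →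
          {π : cube (Fin d) ≃g cube (Fin d) // π zero ∈ B} := fun π => ⟨π.1, by
        by_contra hnb
        have hcl : cls Sᶜ m (π.1 zero) = cls Sᶜ m (π.1.symm zero) :=
          cls_eq_of_not_bad (wt_iso π.1) hnb
        rcases hx2 i hi j hj hij (cls Sᶜ m (π.1 zero)) (cls_lt Sᶜ hmpos _) with h | h
        · obtain ⟨t, ht, h1, h2⟩ := h (π.1 zero) rfl
          apply π.2 t (hℓT t ht)
          rw [h1, h2]
        · obtain ⟨t, ht, h1, h2⟩ := h (π.1.symm zero) hcl.symm
          apply π.2 t (hℓT t ht)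
          rw [h1, h2]
          simp⟩
      exact Nat.card_le_card_of_injective f (fun a b hab => Subtype.ext (by
        simpa [f] using hab))
    have h2 := card_aut (ι := Fin d) B
    have h3 := card_badpoints_le (ι := Fin d) Sᶜ m
    rw [hScc, Fintype.card_fin] at h3
    rw [Fintype.card_fin] at h2
    have h4 : (Nat.card {π : cube (Fin d) ≃g cube (Fin d) //
        ∀ t : ℕ, (t : ℝ) + 1 ≤ T → x i t ≠ π (x j t)} : ℝ) ≤
        ((m : ℝ) * s * del d) * Nat.card (cube (Fin d) ≃g cube (Fin d)) := by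
      have h1' : (Nat.card {π : cube (Fin d) ≃g cube (Fin d) //
        ∀ t : ℕ, (t : ℝ) + 1 ≤ T → x i t ≠ π (x j t)} : ℝ) ≤
        Nat.card {π : cube (Fin d) ≃g cube (Fin d) // π zero ∈ B} := by exact_mod_cast h1
      have h2' : (Nat.card {π : cube (Fin d) ≃g cube (Fin d) // π zero ∈ B} : ℝ) * 2 ^ d =
        Nat.card B * Nat.card (cube (Fin d) ≃g cube (Fin d)) := by exact_mod_cast h2
      have h3' : (Nat.card B : ℝ) ≤ m * s * (del d * 2 ^ d) := h3
      have hpow : (0 : ℝ) < 2 ^ d := by positivity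
      have h5 : (Nat.card {π : cube (Fin d) ≃g cube (Fin d) // π zero ∈ B} : ℝ) * 2 ^ d ≤
          (((m : ℝ) * s * del d) * Nat.card (cube (Fin d) ≃g cube (Fin d))) * 2 ^ d := by
        rw [h2']
        have h6 := mul_le_mul_of_nonneg_right h3'
          (Nat.cast_nonneg (α := ℝ) (Nat.card (cube (Fin d) ≃g cube (Fin d))))
        refine h6.trans (le_of_eq ?_)
        ring
      exact h1'.trans (le_of_mul_le_mul_right h5 hpow)
    apply ENNReal.div_le_of_le_mul
    rw [hβ, ← ENNReal.ofReal_natCast (Nat.card (cube (Fin d) ≃g cube (Fin d))),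
      ← ENNReal.ofReal_natCast, ← ENNReal.ofReal_mul (by
        have := del_nonneg d
        positivity)]
    exact ENNReal.ofReal_le_ofReal h4
  -- summation
  have hsum : failProb (cube (Fin d)) D T =
      ∑ i : Fin (2 ^ q), ∑ j : Fin (2 ^ q), ((2 ^ q : ℕ) : ℝ≥0∞)⁻¹ *
        (((2 ^ q : ℕ) : ℝ≥0∞)⁻¹ * c (x i) (x j)) := by
    have e1 : failProb (cube (Fin d)) D T = ∑' y, D y * ∑' z, D z * c y z := by
      unfold failProb
      refine tsum_congr (fun y => ?_)
      rw [← ENNReal.tsum_mul_left]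
      refine tsum_congr (fun z => ?_)
      rw [mul_assoc]
    rw [e1, tsum_map, tsum_fintype]
    refine Finset.sum_congr rfl (fun i _ => ?_)
    rw [tsum_map, tsum_fintype, PMF.uniformOfFintype_apply, Fintype.card_fin, Finset.mul_sum]
    refine Finset.sum_congr rfl (fun j _ => ?_)
    rw [PMF.uniformOfFintype_apply, Fintype.card_fin]
  rw [hsum]
  set r : ℝ≥0∞ := ((2 ^ q : ℕ) : ℝ≥0∞) with hr
  have hr0 : r ≠ 0 := by
    rw [hr]; exact_mod_cast (by positivity : (2 ^ q : ℕ) ≠ 0)
  have hrt : r ≠ ⊤ := ENNReal.natCast_ne_top _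
  have hrow : ∀ i : Fin (2 ^ q), ∑ j : Fin (2 ^ q), r⁻¹ * (r⁻¹ * c (x i) (x j)) ≤
      r⁻¹ * (r⁻¹ + β) := by
    intro i
    rw [← Finset.mul_sum]
    apply mul_le_mul_right
    have h1 : ∀ j : Fin (2 ^ q), r⁻¹ * c (x i) (x j) ≤ (if j = i then r⁻¹ else 0) + r⁻¹ * β := by
      intro j
      by_cases hj : j = i
      · rw [if_pos hj]
        calc r⁻¹ * c (x i) (x j) ≤ r⁻¹ * 1 := by gcongr; exact hc1 _ _
          _ ≤ r⁻¹ + r⁻¹ * β := by rw [mul_one]; exact le_self_add
      · rw [if_neg hj, zero_add]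
        gcongr
        exact hc2 i i.2 j j.2 (fun h => hj (Fin.ext h.symm))
    refine (Finset.sum_le_sum (fun j _ => h1 j)).trans ?_
    rw [Finset.sum_add_distrib, Finset.sum_ite_eq' Finset.univ i, if_pos (Finset.mem_univ i),
      Finset.sum_const, Finset.card_univ, Fintype.card_fin, nsmul_eq_mul, ← hr, ← mul_assoc,
      ENNReal.mul_inv_cancel hr0 hrt, one_mul]
  refine (Finset.sum_le_sum (fun i _ => hrow i)).trans ?_
  rw [Finset.sum_const, Finset.card_univ, Fintype.card_fin, nsmul_eq_mul, ← hr, ← mul_assoc,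
    ENNReal.mul_inv_cancel hr0 hrt, one_mul]

/-- For all `α > 2` and `ε > 0` and all large `d` there is a good strategy. -/
theorem eventually_good (α : ℝ) (hα : 2 < α) (ε : ℝ≥0∞) (hε : 0 < ε) :
    ∀ᶠ d : ℕ in atTop, ∃ D : PMF (ℕ → (Fin d → Bool)),
      (∀ x ∈ D.support, IsSchedule (cube (Fin d)) x) ∧
      failProb (cube (Fin d)) D (α * 2 ^ d) ≤ ε := by
  have hε2 : ε / 2 ≠ 0 := (ENNReal.half_pos hε.ne').ne'
  -- choice of q
  obtain ⟨n, hn⟩ := ENNReal.exists_inv_nat_lt hε2
  obtain ⟨q, hq⟩ : ∃ q : ℕ, n ≤ 2 ^ q := ⟨n, Nat.lt_two_pow_self.le⟩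
  have hq2 : (((2 ^ q : ℕ) : ℝ≥0∞))⁻¹ ≤ ε / 2 := by
    refine le_trans ?_ hn.le
    apply ENNReal.inv_le_inv.2
    exact_mod_cast hq
  set m : ℕ := 2 ^ (2 ^ q - 1) with hm
  have hmpos : (0 : ℝ) < m := by rw [hm]; positivity
  have h2m : (2 : ℝ) ^ (2 ^ q) = 2 * m := by
    rw [hm]
    push_cast
    rw [← pow_succ', Nat.sub_add_cancel Nat.one_le_two_pow]
  -- choice of s
  obtain ⟨s, hs⟩ : ∃ s : ℕ, (2 * m : ℝ) * (1 / 2) ^ s < (α - 2) / 4 := by
    have h1 : Tendsto (fun s : ℕ => (2 * m : ℝ) * (1 / 2) ^ s) atTop (𝓝 (2 * m * 0)) :=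
      (tendsto_pow_atTop_nhds_zero_of_lt_one (by norm_num) (by norm_num)).const_mul _
    rw [mul_zero] at h1
    exact (h1.eventually (gt_mem_nhds (by linarith : (0 : ℝ) < (α - 2) / 4))).exists
  -- limits
  have l1 : Tendsto (fun d : ℕ => (2 * m : ℝ) * del (d - s)) atTop (𝓝 (2 * m * 0)) :=
    (del_tendsto.comp (tendsto_sub_atTop_nat s)).const_mul _
  have l2 : Tendsto (fun d : ℕ => (2 * m : ℝ) * (((d : ℝ) + 1) * (1 / 2) ^ d)) atTop
      (𝓝 (2 * m * (0 + 0))) := by
    apply Tendsto.const_mul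
    have a1 := tendsto_self_mul_const_pow_of_lt_one (r := (1 / 2 : ℝ)) (by norm_num) (by norm_num)
    have a2 := tendsto_pow_atTop_nhds_zero_of_lt_one (r := (1 / 2 : ℝ)) (by norm_num) (by norm_num)
    refine (a1.add a2).congr (fun d => ?_)
    ring
  have l3 : Tendsto (fun d : ℕ => ENNReal.ofReal ((m : ℝ) * s * del d)) atTop (𝓝 0) := by
    have := (del_tendsto.const_mul ((m : ℝ) * s))
    rw [mul_zero] at this
    have h2 := ENNReal.tendsto_ofReal this
    simpa using h2
  rw [mul_zero] at l1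
  rw [add_zero, mul_zero] at l2
  have hα4 : (0 : ℝ) < (α - 2) / 4 := by linarith
  filter_upwards [l1.eventually (gt_mem_nhds hα4), l2.eventually (gt_mem_nhds hα4),
    l3.eventually (gt_mem_nhds (ENNReal.half_pos hε.ne')), eventually_ge_atTop s]
    with d h1 h2 h3 hd
  obtain ⟨D, hD1, hD2⟩ := core q s d hd (α * 2 ^ d) (by
    rw [← hm, h2m]
    have hpow : (0 : ℝ) < 2 ^ d := by positivity
    have e1 : (2 : ℝ) ^ (d - s) = (1 / 2) ^ s * 2 ^ d := by
      have : (2 : ℝ) ^ d = 2 ^ (d - s) * 2 ^ s := by rw [← pow_add, Nat.sub_add_cancel hd]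
      rw [this, one_div, inv_pow]
      field_simp
    have e2 : ((d : ℝ) + 1) = ((d : ℝ) + 1) * (1 / 2) ^ d * 2 ^ d := by
      rw [mul_assoc, ← mul_pow]
      norm_num
    have e3 : (2 * (m : ℝ)) * (2 ^ d / (m : ℝ)) = 2 * 2 ^ d := by
      field_simp
    calc (2 * (m : ℝ)) * (2 ^ (d - s) + (2 ^ d / (m : ℝ) + del (d - s) * 2 ^ d) + d + 1)
        = (2 * m) * 2 ^ (d - s) + (2 * (m : ℝ)) * (2 ^ d / (m : ℝ)) +
          (2 * m) * del (d - s) * 2 ^ d + (2 * m) * ((d : ℝ) + 1) := by ring
      _ = ((2 * m) * (1 / 2) ^ s + 2 + (2 * m) * del (d - s) +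
          (2 * m) * (((d : ℝ) + 1) * (1 / 2) ^ d)) * 2 ^ d := by
          rw [e1, e3]
          conv_lhs => rw [e2]
          ring
      _ ≤ α * 2 ^ d := by
          apply mul_le_mul_of_nonneg_right _ hpow.le
          linarith)
  refine ⟨D, hD1, hD2.trans ?_⟩
  calc _ ≤ ε / 2 + ε / 2 := add_le_add hq2 h3.le
    _ = ε := ENNReal.add_halves ε

/-- **Main result.**  For every `α > 2` (in particular for every `2 < α < 4`) there are symmetric
strategies `D d` on the hypercubes `Q_d` (probability distributions on walk schedules) such that the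
probability of `τ > α 2^d` tends to `0` as `d → ∞`. -/
theorem result (α : ℝ) (hα : 2 < α) :
    ∃ D : ∀ d : ℕ, PMF (ℕ → (Fin d → Bool)),
      (∀ d, ∀ x ∈ (D d).support, IsSchedule (cube (Fin d)) x) ∧
      Tendsto (fun d => failProb (cube (Fin d)) (D d) (α * 2 ^ d)) atTop (𝓝 0) := by
  classical
  -- for every `d` choose a strategy which is good up to `1 / (k + 1)` with `k` as large as possible
  let good : ℕ → ℕ → Prop := fun d k => ∃ D : PMF (ℕ → (Fin d → Bool)),
      (∀ x ∈ D.support, IsSchedule (cube (Fin d)) x) ∧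
      failProb (cube (Fin d)) D (α * 2 ^ d) ≤ ((k : ℝ≥0∞))⁻¹
  have hgood0 : ∀ d, good d 0 := by
    intro d
    refine ⟨PMF.pure (fun _ _ => false), ?_, by simp⟩
    intro x hx
    rw [PMF.support_pure, Set.mem_singleton_iff] at hx
    subst hx
    exact fun _ => Or.inl rfl
  have hev : ∀ k, ∀ᶠ d in atTop, good d k := by
    intro k
    exact eventually_good α hα _ (ENNReal.inv_pos.2 (ENNReal.natCast_ne_top k))
  let K : ℕ → ℕ := fun d => Nat.findGreatest (good d) d
  have hK : ∀ d, good d (K d) := fun d => Nat.findGreatest_spec (Nat.zero_le d) (hgood0 d)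
  choose D hD1 hD2 using hK
  refine ⟨D, hD1, ?_⟩
  have hKt : Tendsto K atTop atTop := by
    rw [tendsto_atTop]
    intro k
    filter_upwards [hev k, eventually_ge_atTop k] with d h1 h2
    exact Nat.le_findGreatest h2 h1
  refine tendsto_of_tendsto_of_tendsto_of_le_of_le tendsto_const_nhds
    (ENNReal.tendsto_inv_nat_nhds_zero.comp hKt) (fun _ => bot_le) hD2

end Pool.Agent.Results.MP_02b4f7_co.FasterThanFour
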